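import Pool.Agent.Lib.MP_ca0971_gt.Fin

/-!
# MP_ca0971_gt, Q1: the answer is no

There is a closed, connected, oriented smooth 3-manifold which carries a tight positive contact pair
and contains a smoothly embedded 2-sphere that bounds no ball. The example is `S^1 x S^2` with
`α_± = z dθ ± (x dy - y dx) + dz` and `Z = z ∂_θ + grad z`; tightness is reduced to the theorem of
Bennequin (the standard contact structure of `R^3` has no overtwisted disc), which is proved here from
scratch by the vertex models of the quantum groups of `gl(N)` on polygons, `q = 2`, `N → ∞`.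
-/

set_option autoImplicit false

namespace Pool.Agent.Results.MP_ca0971_gt.Reducible

open Pool.Agent.Lib.MP_ca0971_gt.St
open scoped Manifold ContDiff

/-- Negated form of Q1. -/
theorem result :
    ∃ (M : Type) (_ : TopologicalSpace M) (_ : ChartedSpace E3 M),
      IsManifold 𝓘(ℝ, E3) ∞ M ∧ CompactSpace M ∧ T2Space M ∧ SecondCountableTopology M ∧
      ConnectedSpace M ∧ OrientedAtlas M ∧ (∃ αm αp : OneForm M, TightPositivePair αm αp) ∧
      ¬ Irreducible M :=
  Pool.Agent.Lib.MP_ca0971_gt.Fn.main

end Pool.Agent.Results.MP_ca0971_gt.Reducible
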